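import Pool.Agent.T2h14.FD.Stm

/-! Limits of endomorphisms, and bijectivity. -/

set_option autoImplicit false

open MvPowerSeries IsLocalRing
open scoped TensorProduct

namespace Pool.Agent.T2h14.FD

section

variable {R : Type} [CommRing R] {x : R}

theorem smod_iff (n : ℕ) (a b : R) :
    a ≡ b [SMOD (Ideal.span {x} ^ n • ⊤ : Submodule R R)] ↔ x ^ n ∣ a - b := by
  rw [SModEq.sub_mem, Ideal.span_singleton_pow, smul_eq_mul, Ideal.mul_top,
    Ideal.mem_span_singleton]

theorem haus_of [IsAdicComplete (Ideal.span {x}) R] {a : R} (h : ∀ n : ℕ, x ^ n ∣ a) : a = 0 := by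
  refine IsHausdorff.haus (I := Ideal.span {x}) inferInstance a fun n => ?_
  rw [smod_iff, sub_zero]
  exact h n

theorem lim_of [IsAdicComplete (Ideal.span {x}) R] (f : ℕ → R)
    (h : ∀ n, x ^ n ∣ f (n + 1) - f n) : ∃ L, ∀ n, x ^ n ∣ f n - L := by
  have h1 : ∀ m k, x ^ m ∣ f m - f (m + k) := by
    intro m k
    induction k with
    | zero => simp
    | succ k ih =>
      have e1 : f m - f (m + (k + 1)) = (f m - f (m + k)) - (f (m + k + 1) - f (m + k)) := by
        rw [add_assoc]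
        ring
      rw [e1]
      exact dvd_sub ih ((pow_dvd_pow x (by omega)).trans (h (m + k)))
  obtain ⟨L, hL⟩ := IsPrecomplete.prec (I := Ideal.span {x}) (M := R) inferInstance
    (f := f) (fun {m n} hmn => by
      rw [smod_iff]
      obtain ⟨k, rfl⟩ := Nat.exists_eq_add_of_le hmn
      exact h1 m k)
  exact ⟨L, fun n => (smod_iff n _ _).1 (hL n)⟩

end

theorem t_LIM : LIM := by
  intro R _ x _ Θ hΘ h0
  have h1 : ∀ m k g, x ^ (m + 2) ∣ Θ (m + k) g - Θ m g := by
    intro m k g
    induction k with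
    | zero => simp
    | succ k ih =>
      have e1 : Θ (m + (k + 1)) g - Θ m g = (Θ (m + k + 1) g - Θ (m + k) g) +
          (Θ (m + k) g - Θ m g) := by
        rw [add_assoc]
        ring
      rw [e1]
      exact dvd_add ((pow_dvd_pow x (by omega)).trans (hΘ (m + k) g)) ih
  have h2 : ∀ g, ∃ L, ∀ n, x ^ n ∣ Θ n g - L := fun g =>
    lim_of (x := x) (fun n => Θ n g) fun n => (pow_dvd_pow x (by omega)).trans (hΘ n g)
  choose T hT using h2
  have h3 : ∀ ν g, x ^ (ν + 2) ∣ T g - Θ ν g := by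
    intro ν g
    have e1 : T g - Θ ν g = (Θ (ν + 2) g - Θ ν g) - (Θ (ν + 2) g - T g) := by ring
    rw [e1]
    exact dvd_sub (h1 ν 2 g) (hT g (ν + 2))
  have h4 : ∀ ν g, x ^ ν ∣ T g - Θ ν g := fun ν g => (pow_dvd_pow x (by omega)).trans (h3 ν g)
  have hone : T 1 = 1 := by
    rw [← sub_eq_zero]
    refine haus_of (x := x) fun n => ?_
    have := h4 n 1
    rwa [map_one] at this
  have hzero : T 0 = 0 := by
    refine haus_of (x := x) fun n => ?_
    have := h4 n 0
    rwa [map_zero, sub_zero] at this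
  have hadd : ∀ g h, T (g + h) = T g + T h := by
    intro g h
    rw [← sub_eq_zero]
    refine haus_of (x := x) fun n => ?_
    have e1 : T (g + h) - (T g + T h) = (T (g + h) - Θ n (g + h)) - (T g - Θ n g) -
        (T h - Θ n h) := by
      rw [map_add]
      ring
    rw [e1]
    exact dvd_sub (dvd_sub (h4 n _) (h4 n _)) (h4 n _)
  have hmul : ∀ g h, T (g * h) = T g * T h := by
    intro g h
    rw [← sub_eq_zero]
    refine haus_of (x := x) fun n => ?_
    have e1 : T (g * h) - T g * T h = (T (g * h) - Θ n (g * h)) - (T g - Θ n g) * T h -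
        Θ n g * (T h - Θ n h) := by
      rw [map_mul]
      ring
    rw [e1]
    exact dvd_sub (dvd_sub (h4 n _) ((h4 n _).mul_right _)) ((h4 n _).mul_left _)
  exact ⟨{ toFun := T, map_one' := hone, map_mul' := hmul, map_zero' := hzero, map_add' := hadd },
    h3⟩

theorem t_BIJ : BIJ := by
  intro R _ _ x _ Θ hΘ
  by_cases hx0 : x = 0
  · have h1 : ∀ g, Θ g = g := by
      intro g
      have := hΘ g
      rw [hx0, zero_pow two_ne_zero, zero_dvd_iff, sub_eq_zero] at this
      exact this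
    exact ⟨fun a b hab => by rwa [h1, h1] at hab, fun a => ⟨a, h1 a⟩⟩
  have hxu : ¬ IsUnit x := by
    intro hu
    exact one_ne_zero (haus_of (x := x) (a := (1 : R)) fun n => (hu.pow n).dvd)
  obtain ⟨w, hw⟩ := hΘ x
  have hΘx : Θ x = x * (1 + x * w) := by linear_combination hw
  have hu0 : 1 + x * w ≠ 0 := by
    intro h
    refine hxu (IsUnit.of_mul_eq_one (-w) ?_)
    linear_combination -h
  have hpow : ∀ m g, ∃ v, Θ (x ^ m * g) = x ^ m * (1 + x * w) ^ m * (g + x ^ 2 * v) := by
    intro m g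
    obtain ⟨v, hv⟩ := hΘ g
    refine ⟨v, ?_⟩
    have h1 : Θ g = g + x ^ 2 * v := by linear_combination hv
    rw [map_mul, map_pow, hΘx, h1, mul_pow]
  have hdv : ∀ m g, x ^ m ∣ g → x ^ m ∣ Θ g := by
    rintro m _ ⟨g, rfl⟩
    obtain ⟨v, hv⟩ := hpow m g
    rw [hv, mul_assoc]
    exact dvd_mul_right _ _
  have herr : ∀ m g, x ^ m ∣ g → x ^ (m + 1) ∣ g - Θ g := by
    rintro m _ ⟨g, rfl⟩
    obtain ⟨v, hv⟩ := hpow m g
    have h1 : x ∣ (1 + x * w) ^ m - 1 := by
      have h2 := sub_dvd_pow_sub_pow (1 + x * w) 1 m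
      rw [one_pow] at h2
      refine dvd_trans ⟨w, by ring⟩ h2
    obtain ⟨z, hz⟩ := h1
    refine ⟨-(z * g) - (1 + x * w) ^ m * x * v, ?_⟩
    rw [hv]
    have h3 : (1 + x * w) ^ m = 1 + x * z := by linear_combination hz
    rw [h3]
    ring
  constructor
  · rw [injective_iff_map_eq_zero]
    intro g hg
    by_contra hne
    have h1 : ∃ n, ¬ x ^ n ∣ g := by
      by_contra hcon
      push Not at hcon
      exact hne (haus_of (x := x) hcon)
    classical
    obtain ⟨n, hn, hmin⟩ : ∃ n, ¬ x ^ n ∣ g ∧ ∀ m < n, x ^ m ∣ g :=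
      ⟨Nat.find h1, Nat.find_spec h1, fun m hm => not_not.1 (Nat.find_min h1 hm)⟩
    have hn0 : n ≠ 0 := by
      rintro rfl
      exact hn (by rw [pow_zero]; exact one_dvd _)
    obtain ⟨m, rfl⟩ := Nat.exists_eq_succ_of_ne_zero hn0
    obtain ⟨g', hg'⟩ := hmin m (Nat.lt_succ_self m)
    obtain ⟨v, hv⟩ := hpow m g'
    rw [← hg', hg] at hv
    have h2 : g' + x ^ 2 * v = 0 := by
      rcases mul_eq_zero.1 hv.symm with h3 | h3
      · exact absurd h3 (mul_ne_zero (pow_ne_zero _ hx0) (pow_ne_zero _ hu0))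
      · exact h3
    refine hn ⟨-(x * v), ?_⟩
    rw [hg', Nat.succ_eq_add_one]
    linear_combination x ^ m * h2
  · intro h
    -- successive approximation
    obtain ⟨q, hq0, hqs⟩ : ∃ q : ℕ → R, q 0 = 0 ∧ ∀ n, q (n + 1) = q n + (h - Θ (q n)) :=
      ⟨fun n => Nat.rec 0 (fun _ z => z + (h - Θ z)) n, rfl, fun n => rfl⟩
    have he : ∀ n, x ^ n ∣ h - Θ (q n) := by
      intro n
      induction n with
      | zero =>
        rw [pow_zero]
        exact one_dvd _
      | succ n ih =>
        have e1 : h - Θ (q (n + 1)) = (h - Θ (q n)) - Θ (h - Θ (q n)) := by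
          rw [hqs, map_add]
          ring
        rw [e1]
        exact herr n _ ih
    obtain ⟨L, hL⟩ := lim_of (x := x) q fun n => by
      have e1 : q (n + 1) - q n = h - Θ (q n) := by
        rw [hqs]
        ring
      rw [e1]
      exact he n
    refine ⟨L, ?_⟩
    rw [← sub_eq_zero]
    refine haus_of (x := x) fun n => ?_
    have e1 : Θ L - h = -(Θ (q n - L)) - (h - Θ (q n)) := by
      rw [map_sub]
      ring
    rw [e1]
    exact dvd_sub ((hdv n _ (hL n)).neg_right) (he n)

end Pool.Agent.T2h14.FD
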