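import Pool.Agent.T2h14.FD.Stm

/-! One step of the Newton iteration. -/

set_option autoImplicit false

open MvPowerSeries IsLocalRing
open scoped TensorProduct

namespace Pool.Agent.T2h14.FD

theorem det_congr_aux {R : Type} [CommRing R] {s : ℕ} (A B N : Matrix (Fin s) (Fin s) R) (c : R)
    (h : ∀ i l, A i l - B i l = c * N i l) : c ∣ A.det - B.det := by
  rw [← Ideal.mem_span_singleton, ← Ideal.Quotient.mk_eq_mk_iff_sub_mem, RingHom.map_det,
    RingHom.map_det]
  congr 1
  ext i l
  rw [RingHom.mapMatrix_apply, RingHom.mapMatrix_apply, Matrix.map_apply, Matrix.map_apply,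
    Ideal.Quotient.mk_eq_mk_iff_sub_mem, Ideal.mem_span_singleton, h]
  exact dvd_mul_right _ _

theorem t_STEP (hL : LIFT) : STEP := by
  classical
  intro p _ k _ _ n s D f F x a hx ha hδ hfF
  obtain ⟨δ, hδd⟩ : ∃ δ, δ = (Matrix.of fun i l => D i (f l)).det := ⟨_, rfl⟩
  rw [← hδd] at hfF ⊢
  choose e he using hfF
  obtain ⟨b, rfl⟩ : ∃ b, a = b + 1 := ⟨a - 1, by omega⟩
  -- the derivatives of the difference
  have h1 : ∀ i l, ∃ N, D i (f l) - D i (F l) = x ^ b * δ * N := by
    intro i l
    rw [← map_sub, he]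
    refine ⟨(b + 1 : ℕ) * D i x * δ * e l + 2 * x * D i δ * e l + x * δ * D i (e l), ?_⟩
    rw [Derivation.leibniz, Derivation.leibniz, Derivation.leibniz_pow, Derivation.leibniz_pow]
    simp only [smul_eq_mul, nsmul_eq_mul, Nat.add_sub_cancel]
    push_cast
    ring
  choose N hN using h1
  obtain ⟨w, hw⟩ := det_congr_aux (Matrix.of fun i l => D i (f l)) (Matrix.of fun i l => D i (F l))
    (Matrix.of N) (x ^ b * δ) (fun i l => by simpa using hN i l)
  rw [← hδd] at hw
  have hu : IsUnit (1 - x ^ b * w) := by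
    rw [MvPowerSeries.isUnit_iff_constantCoeff, map_sub, map_mul, map_pow, hx, map_one,
      zero_pow (by omega), zero_mul, sub_zero]
    exact isUnit_one
  obtain ⟨u, hu⟩ := hu
  have hdet : (Matrix.of fun i l => D i (F l)).det = δ * u := by
    rw [hu]
    linear_combination -hw
  obtain ⟨h, hh⟩ : ∃ h : Fin s → Rn n k, h = fun i => x ^ (b + 1) * δ * ((u⁻¹ : (Rn n k)ˣ) *
    ∑ l, e l * (Matrix.of fun i l => D i (F l)).adjugate l i) := ⟨_, rfl⟩
  have hsum : ∀ l, ∑ i, h i * D i (F l) = f l - F l := by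
    intro l
    have h2 : ∀ l', ∑ i, (Matrix.of fun i l => D i (F l)).adjugate l' i * D i (F l) =
        if l' = l then δ * u else 0 := by
      intro l'
      have h3 := congrFun (congrFun (Matrix.adjugate_mul (Matrix.of fun i l => D i (F l))) l') l
      rw [Matrix.mul_apply, Matrix.smul_apply, Matrix.one_apply, hdet] at h3
      simpa using h3
    calc ∑ i, h i * D i (F l) = x ^ (b + 1) * δ * ((u⁻¹ : (Rn n k)ˣ) * ∑ l', e l' *
          ∑ i, (Matrix.of fun i l => D i (F l)).adjugate l' i * D i (F l)) := by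
          simp only [hh, Finset.mul_sum, Finset.sum_mul]
          rw [Finset.sum_comm]
          refine Finset.sum_congr rfl fun l' _ => Finset.sum_congr rfl fun i _ => ?_
          ring
      _ = x ^ (b + 1) * δ * ((u⁻¹ : (Rn n k)ˣ) * (e l * (δ * u))) := by
          simp only [h2]
          congr 2
          rw [Finset.sum_eq_single l]
          · rw [if_pos rfl]
          · intro l' _ hl'
            rw [if_neg hl', mul_zero]
          · intro hc
            exact absurd (Finset.mem_univ l) hc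
      _ = f l - F l := by
          rw [he]
          have h4 : ((u⁻¹ : (Rn n k)ˣ) : Rn n k) * u = 1 := Units.inv_mul u
          linear_combination (x ^ (b + 1) * δ * e l * δ) * h4
  obtain ⟨τ, hτ⟩ := hL p k n s D (x ^ (b + 1) * δ) h
    (by rw [map_mul, map_pow, hx, zero_pow (by omega), zero_mul])
    (fun i => by rw [hh]; exact dvd_mul_right _ _)
  refine ⟨τ, fun g => ?_, fun l => ?_⟩
  · have h2 : τ g - g = (τ g - g - ∑ i, h i * D i g) + ∑ i, h i * D i g := by ring
    rw [h2]
    have h3 : x ^ (b + 1) ∣ (x ^ (b + 1) * δ) ^ 2 := ⟨x ^ (b + 1) * δ ^ 2, by ring⟩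
    refine dvd_add (h3.trans (hτ g)) (Finset.dvd_sum fun i _ => ?_)
    rw [hh]
    exact ((dvd_mul_right _ _).mul_right _).mul_right _
  · have h2 := hτ (F l)
    rw [hsum] at h2
    have h3 : f l - τ (F l) = -(τ (F l) - F l - (f l - F l)) := by ring
    rw [h3, dvd_neg]
    refine dvd_trans (dvd_of_eq ?_) h2
    ring

end Pool.Agent.T2h14.FD
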