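import Pool.Agent.T2h14.FD.Stm

/-! A maximal minor of the matrix of all derivatives. -/

set_option autoImplicit false

open MvPowerSeries IsLocalRing
open scoped TensorProduct

namespace Pool.Agent.T2h14.FD

theorem t_MIN : MIN := by
  classical
  intro R _ _ r f
  obtain ⟨P, hP⟩ : ∃ P : ℕ → Prop, P = fun s => ∃ (D : Fin s → Derivation ℤ R R)
    (j : Fin s → Fin r), (Matrix.of fun i l => D i (f (j l))).det ≠ 0 := ⟨_, rfl⟩
  have hbd : ∀ s, P s → s ≤ r := by
    intro s hs
    rw [hP] at hs
    obtain ⟨D, j, hd⟩ := hs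
    have hinj : Function.Injective j := by
      intro a b hab
      by_contra hne
      exact hd (Matrix.det_zero_of_column_eq hne fun i => by
        rw [Matrix.of_apply, Matrix.of_apply, hab])
    simpa using Fintype.card_le_of_injective j hinj
  have hP0 : P 0 := by
    rw [hP]
    exact ⟨fun i => i.elim0, fun i => i.elim0, by simp⟩
  have hs : P (Nat.findGreatest P r) := Nat.findGreatest_spec (Nat.zero_le r) hP0
  have hs1 : ¬ P (Nat.findGreatest P r + 1) := by
    intro h
    have h1 := Nat.le_findGreatest (hbd _ h) h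
    omega
  obtain ⟨s, hsdef⟩ : ∃ s, s = Nat.findGreatest P r := ⟨_, rfl⟩
  rw [← hsdef] at hs hs1
  rw [hP] at hs hs1
  obtain ⟨D, j, hd⟩ := hs
  refine ⟨s, D, j, hd, ?_⟩
  intro i
  refine ⟨fun l => -((-1) ^ ((l : ℕ) + 1) * (Matrix.of fun (x y : Fin s) =>
    D x (f ((Fin.cons i j : Fin (s + 1) → Fin r) (l.succ.succAbove y)))).det), ?_⟩
  intro D'
  have h0 : (Matrix.of fun (x y : Fin (s + 1)) =>
      (Fin.cons D' D : Fin (s + 1) → Derivation ℤ R R) x
        (f ((Fin.cons i j : Fin (s + 1) → Fin r) y))).det = 0 := by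
    by_contra hne
    exact hs1 ⟨_, _, hne⟩
  rw [Matrix.det_succ_row_zero, Fin.sum_univ_succ] at h0
  simp only [Matrix.of_apply, Fin.cons_zero, Fin.cons_succ, Fin.val_zero, pow_zero, one_mul,
    Fin.val_succ] at h0
  have h1 : (Matrix.of fun (x y : Fin (s + 1)) =>
      (Fin.cons D' D : Fin (s + 1) → Derivation ℤ R R) x
        (f ((Fin.cons i j : Fin (s + 1) → Fin r) y))).submatrix Fin.succ
          (Fin.succAbove (0 : Fin (s + 1))) = Matrix.of fun i l => D i (f (j l)) := by
    ext x y
    simp only [Matrix.submatrix_apply, Matrix.of_apply, Fin.cons_succ, Fin.zero_succAbove]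
  have h2 : ∀ l : Fin s, (Matrix.of fun (x y : Fin (s + 1)) =>
      (Fin.cons D' D : Fin (s + 1) → Derivation ℤ R R) x
        (f ((Fin.cons i j : Fin (s + 1) → Fin r) y))).submatrix Fin.succ
          (Fin.succAbove l.succ) = Matrix.of fun (x y : Fin s) =>
    D x (f ((Fin.cons i j : Fin (s + 1) → Fin r) (l.succ.succAbove y))) := by
    intro l
    ext x y
    simp only [Matrix.submatrix_apply, Matrix.of_apply, Fin.cons_succ]
  rw [h1] at h0
  simp only [h2] at h0
  have h3 : ∑ l : Fin s, -((-1) ^ ((l : ℕ) + 1) * (Matrix.of fun (x y : Fin s) =>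
      D x (f ((Fin.cons i j : Fin (s + 1) → Fin r) (l.succ.succAbove y)))).det) * D' (f (j l)) =
      -∑ l : Fin s, (-1) ^ ((l : ℕ) + 1) * D' (f (j l)) * (Matrix.of fun (x y : Fin s) =>
      D x (f ((Fin.cons i j : Fin (s + 1) → Fin r) (l.succ.succAbove y)))).det := by
    rw [← Finset.sum_neg_distrib]
    refine Finset.sum_congr rfl fun l _ => ?_
    ring
  rw [h3]
  linear_combination h0

end Pool.Agent.T2h14.FD
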